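import Pool.Agent.UD.MatFinal

/-!
# Field extension subgroups of `PSp(2m, q)` over two conjugate Singer cycles

`F` is a finite field of odd order `q`, `m ≥ 5` is odd, `(m, q) ≠ (5, 3)`.
-/

namespace Pool.Agent.Results.MP_65787c_al.UniformDomination

open Pool.Agent.UD.Mx

/-- Singer cycles (irreducible elements of order `q ^ m + 1`) of `Sp(2m, q)` exist, and for every
irreducible `s` in `Sp(2m, q)` there is one `g` in `PSp(2m, q)` such that the field extension
subgroups attached to the subfields of prime degree of `F[s]` meet the conjugates by `g` of such
subgroups trivially. If moreover the maximal subgroups of `PSp(2m, q)` containing the image of `s`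
are field extension subgroups (Bereczky's theorem for Singer cycles) then the image of `s` and its
conjugate by `g` form a total dominating set and the uniform domination number is `2`. -/
theorem result (m : ℕ) (hodd : Odd m) (h5 : 5 ≤ m) (F : Type*) [Field F] [Finite F]
    (hq : Odd (Nat.card F)) (hne : ¬ (m = 5 ∧ Nat.card F = 3)) :
    (∃ s : Sp m F, ActsIrreducibly s ∧ orderOf s = Nat.card F ^ m + 1) ∧
    ∀ s : Sp m F, ActsIrreducibly s → ∃ g : PSp m F, TrivialMeets s g ∧
      (Overgroups s → TotalDominating {toPSp s, g * toPSp s * g⁻¹} ∧ gammaU (PSp m F) = 2) :=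
  final m hodd h5 F hq hne

end Pool.Agent.Results.MP_65787c_al.UniformDomination
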